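import Mathlib
import Pool.Agent.Lib.MP_6e0a1a_co.EvMain

namespace Pool.Agent.Results.MP_6e0a1a_co.EventualEmbedding

/-- For every k the geometric homomorphism poset of K_k is a sub-poset of that of K_n for all
large n. -/
theorem result (k : ℕ) :
    ∃ n₀ : ℕ, ∀ n : ℕ, n₀ ≤ n → Pool.Agent.Lib.MP_6e0a1a_co.SubPoset k n :=
  ⟨_, fun _ hn => Pool.Agent.Lib.MP_6e0a1a_co.Ev.subPoset_of_le hn⟩

end Pool.Agent.Results.MP_6e0a1a_co.EventualEmbedding
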