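import Mathlib
import Pool.Agent.Lib.MP_6e0a1a_co.Main

namespace Pool.Agent.Results.MP_6e0a1a_co.NoEmbedding

/-- The geometric homomorphism poset of K_6 is not a sub-poset of that of K_7. -/
theorem result : ¬ Pool.Agent.Lib.MP_6e0a1a_co.SubPoset 6 7 :=
  Pool.Agent.Lib.MP_6e0a1a_co.not_subPoset

end Pool.Agent.Results.MP_6e0a1a_co.NoEmbedding
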